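import Pool.Agent.Lib.BCH.KApi

/-! Schanuel's lemma for approximate isomorphisms. -/

noncomputable section

open MulOpposite Matrix Filter Topology

namespace Pool.Agent.Lib.TI

open BCH

variable {A E F : Type} [NormedRing A] [AddCommGroup E] [Module Aᵐᵒᵖ E]
  [SeminormedAddCommGroup F] [Module Aᵐᵒᵖ F] [ContinuousConstSMul Aᵐᵒᵖ F]

/-- finite rank data attached to an operator -/
structure Dt (D : E →ₗ[Aᵐᵒᵖ] F) (m k : ℕ) where
  R : (Fin m → A) →ₗ[Aᵐᵒᵖ] F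
  T : E →ₗ[Aᵐᵒᵖ] (Fin k → A)
  B : (Fin m → A) →ₗ[Aᵐᵒᵖ] (Fin k → A)
  p : Matrix (Fin k) (Fin k) A
  cR : Continuous R
  cB : Continuous B
  hT : ∀ ξ, p *ᵥ T ξ = T ξ
  hB : ∀ a, p *ᵥ B a = B a
  dense : ∀ η b, ∀ ε > 0, ∃ ξ a, ‖D ξ + R a - η‖ < ε ∧ ‖T ξ + B a - p *ᵥ b‖ < ε

variable {D : E →ₗ[Aᵐᵒᵖ] F} {m k m' k' : ℕ}

/-- lower bound -/
def Dt.Low (d : Dt D m k) (d' : Dt D m' k') : Prop :=
  ∃ C : ℝ, 0 ≤ C ∧ ∀ ξ a, ‖a‖ ≤ C * (‖D ξ + d.R a‖ + ‖d.T ξ + d.B a‖) ∧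
    ‖d'.T ξ‖ ≤ C * (‖D ξ + d.R a‖ + ‖d.T ξ + d.B a‖)

/-- the approximate kernel -/
def Dt.K (d : Dt D m k) (d' : Dt D m' k') :
    Submodule Aᵐᵒᵖ ((Fin k → A) × (Fin m → A) × (Fin k' → A) × (Fin m' → A)) where
  carrier := {w | ∃ ξ : ℕ → E,
    Tendsto (fun n => D (ξ n) + d.R w.2.1 + d'.R w.2.2.2) atTop (𝓝 0) ∧
    Tendsto (fun n => d.T (ξ n) + d.B w.2.1) atTop (𝓝 w.1) ∧
    Tendsto (fun n => d'.T (ξ n) + d'.B w.2.2.2) atTop (𝓝 w.2.2.1)}
  add_mem' := by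
    rintro v w ⟨ξ, h1, h2, h3⟩ ⟨η, g1, g2, g3⟩
    refine ⟨fun n => ξ n + η n, ?_, ?_, ?_⟩
    · have := h1.add g1
      rw [add_zero] at this
      refine this.congr fun n => ?_
      simp only [map_add, Prod.fst_add, Prod.snd_add]; abel
    · refine (h2.add g2).congr fun n => ?_
      simp only [map_add, Prod.fst_add, Prod.snd_add]; abel
    · refine (h3.add g3).congr fun n => ?_
      simp only [map_add, Prod.fst_add, Prod.snd_add]; abel
  zero_mem' := ⟨fun _ => 0, by simpa using tendsto_const_nhds, by simp, by simp⟩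
  smul_mem' := by
    rintro c v ⟨ξ, h1, h2, h3⟩
    refine ⟨fun n => c • ξ n, ?_, ?_, ?_⟩
    · have := h1.const_smul c
      rw [smul_zero] at this
      refine this.congr fun n => ?_
      simp only [map_smul, Prod.smul_fst, Prod.smul_snd, smul_add]
    · refine (h2.const_smul c).congr fun n => ?_
      simp only [map_smul, Prod.smul_fst, Prod.smul_snd, smul_add]
    · refine (h3.const_smul c).congr fun n => ?_
      simp only [map_smul, Prod.smul_fst, Prod.smul_snd, smul_add]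

theorem Dt.K_symm {d : Dt D m k} {d' : Dt D m' k'} {b a b' a'} (h : (b, a, b', a') ∈ d.K d') :
    (b', a', b, a) ∈ d'.K d := by
  obtain ⟨ξ, h1, h2, h3⟩ := h
  exact ⟨ξ, h1.congr fun n => add_right_comm _ _ _, h3, h2⟩

theorem Dt.K_fix {d : Dt D m k} {d' : Dt D m' k'} {b a b' a'} (h : (b, a, b', a') ∈ d.K d') :
    d'.p *ᵥ b' = b' := by
  obtain ⟨ξ, -, -, h3⟩ := h
  have hc : Continuous fun v : Fin k' → A => d'.p *ᵥ v := continuous_const.matrix_mulVec continuous_id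
  refine tendsto_nhds_unique ((hc.tendsto _).comp h3) (h3.congr fun n => ?_)
  simp only [Function.comp, mulVec_add, d'.hT, d'.hB]

theorem Dt.K_inj {d : Dt D m k} {d' : Dt D m' k'} (hL : d.Low d') {a b'}
    (h : (0, a, b', 0) ∈ d.K d') : a = 0 ∧ b' = 0 := by
  obtain ⟨ξ, h1, h2, h3⟩ := h
  obtain ⟨C, -, hC⟩ := hL
  simp only [map_zero, add_zero] at h1 h2 h3
  have h0 : Tendsto (fun n => C * (‖D (ξ n) + d.R a‖ + ‖d.T (ξ n) + d.B a‖)) atTop (𝓝 0) := by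
    have := (h1.norm.add h2.norm).const_mul C
    simpa using this
  constructor
  · exact norm_le_zero_iff.1 (ge_of_tendsto' h0 fun n => (hC (ξ n) a).1)
  · refine tendsto_nhds_unique h3 (squeeze_zero_norm (fun n => (hC (ξ n) a).2) h0)

theorem cauchy_of_le {V : Type} [SeminormedAddCommGroup V] (u : ℕ → V) (C : ℝ)
    (h : ∀ n l, ‖u n - u l‖ ≤ C * (1 / ((n : ℝ) + 1) + 1 / ((l : ℝ) + 1))) (hC : 0 ≤ C) :
    CauchySeq u := by
  refine cauchySeq_of_le_tendsto_0 (fun N => C * (1 / ((N : ℝ) + 1) + 1 / ((N : ℝ) + 1)))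
    (fun n l N hn hl => ?_) ?_
  · rw [dist_eq_norm]
    refine (h n l).trans (mul_le_mul_of_nonneg_left (add_le_add ?_ ?_) hC)
    · exact Nat.one_div_le_one_div hn
    · exact Nat.one_div_le_one_div hl
  · have := ((tendsto_one_div_add_atTop_nhds_zero_nat (𝕜 := ℝ)).add
      (tendsto_one_div_add_atTop_nhds_zero_nat (𝕜 := ℝ))).const_mul C
    simpa using this

theorem Dt.K_surj [CompleteSpace A] {d : Dt D m k} {d' : Dt D m' k'} (hL : d.Low d') (b a') :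
    ∃ a b', (d.p *ᵥ b, a, b', a') ∈ d.K d' := by
  obtain ⟨C, hC0, hC⟩ := hL
  choose ξ a h1 h2 using fun n : ℕ => d.dense (-d'.R a') b (1 / ((n : ℝ) + 1)) Nat.one_div_pos_of_nat
  have key : ∀ n l, C * (‖D (ξ n - ξ l) + d.R (a n - a l)‖ + ‖d.T (ξ n - ξ l) + d.B (a n - a l)‖) ≤
      2 * C * (1 / ((n : ℝ) + 1) + 1 / ((l : ℝ) + 1)) := by
    intro n l
    have e1 : D (ξ n - ξ l) + d.R (a n - a l) =
        (D (ξ n) + d.R (a n) - -d'.R a') - (D (ξ l) + d.R (a l) - -d'.R a') := by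
      simp only [map_sub]; abel
    have e2 : d.T (ξ n - ξ l) + d.B (a n - a l) =
        (d.T (ξ n) + d.B (a n) - d.p *ᵥ b) - (d.T (ξ l) + d.B (a l) - d.p *ᵥ b) := by
      simp only [map_sub]; abel
    rw [e1, e2]
    have f1 := (norm_sub_le _ _).trans (add_le_add (h1 n).le (h1 l).le)
    have f2 := (norm_sub_le _ _).trans (add_le_add (h2 n).le (h2 l).le)
    nlinarith [mul_le_mul_of_nonneg_left (add_le_add f1 f2) hC0]
  obtain ⟨a0, ha⟩ := cauchySeq_tendsto_of_complete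
    (cauchy_of_le a (2 * C) (fun n l => (hC _ _).1.trans (key n l)) (by positivity))
  obtain ⟨b0, hb⟩ := cauchySeq_tendsto_of_complete
    (cauchy_of_le (fun n => d'.T (ξ n)) (2 * C)
      (fun n l => by rw [← map_sub]; exact (hC _ _).2.trans (key n l)) (by positivity))
  have g1 := squeeze_zero_norm (fun n => (h1 n).le) tendsto_one_div_add_atTop_nhds_zero_nat
  have g2 := squeeze_zero_norm (fun n => (h2 n).le) tendsto_one_div_add_atTop_nhds_zero_nat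
  refine ⟨a0, b0 + d'.B a', ξ, ?_, ?_, hb.add_const _⟩
  · have := (g1.sub ((d.cR.tendsto _).comp ha)).add_const (d.R a0)
    rw [zero_sub, neg_add_cancel] at this
    refine this.congr fun n => ?_
    simp only [Function.comp]; abel
  · have := (g2.sub ((d.cB.tendsto _).comp ha)).add_const (d.B a0 + d.p *ᵥ b)
    rw [zero_sub, neg_add_cancel_left] at this
    refine this.congr fun n => ?_
    simp only [Function.comp]; abel

theorem Dt.half [CompleteSpace A] {d : Dt D m k} {d' : Dt D m' k'} (hL : d.Low d') :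
    ∃ X : Matrix (Fin k' ⊕ Fin m) (Fin k ⊕ Fin m') A, ∀ v : Fin k ⊕ Fin m' → A,
      (d.p *ᵥ (v ∘ Sum.inl), (X *ᵥ v) ∘ Sum.inr, (X *ᵥ v) ∘ Sum.inl, v ∘ Sum.inr) ∈ d.K d' := by
  choose a b' h using fun j : Fin k ⊕ Fin m' => Dt.K_surj hL
    ((Pi.single j (1 : A) : Fin k ⊕ Fin m' → A) ∘ Sum.inl)
    ((Pi.single j (1 : A) : Fin k ⊕ Fin m' → A) ∘ Sum.inr)
  refine ⟨of fun i j => Sum.elim (b' j) (a j) i, fun v => ?_⟩
  have := (d.K d').sum_mem (t := Finset.univ) fun j _ => (d.K d').smul_mem (op (v j)) (h j)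
  convert this using 1
  refine Prod.ext ?_ (Prod.ext ?_ (Prod.ext ?_ ?_))
  · ext i
    simp [Prod.fst_sum, Finset.sum_apply, mulVec, dotProduct, Pi.single_apply, Finset.sum_mul]
  · ext i
    simp [Prod.fst_sum, Prod.snd_sum, Finset.sum_apply, mulVec, dotProduct]
  · ext i
    simp [Prod.fst_sum, Prod.snd_sum, Finset.sum_apply, mulVec, dotProduct]
  · ext i
    simp [Prod.snd_sum, Finset.sum_apply, Pi.single_apply]

theorem Dt.comp_eq {d : Dt D m k} {d' : Dt D m' k'} (hL : d'.Low d)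
    {X : Matrix (Fin k' ⊕ Fin m) (Fin k ⊕ Fin m') A} {Y : Matrix (Fin k ⊕ Fin m') (Fin k' ⊕ Fin m) A}
    (hX : ∀ v : Fin k ⊕ Fin m' → A,
      (d.p *ᵥ (v ∘ Sum.inl), (X *ᵥ v) ∘ Sum.inr, (X *ᵥ v) ∘ Sum.inl, v ∘ Sum.inr) ∈ d.K d')
    (hY : ∀ v : Fin k' ⊕ Fin m → A,
      (d'.p *ᵥ (v ∘ Sum.inl), (Y *ᵥ v) ∘ Sum.inr, (Y *ᵥ v) ∘ Sum.inl, v ∘ Sum.inr) ∈ d'.K d) :
    Y * X = fromBlocks d.p 0 0 1 := by
  have key : ∀ v, (Y * X) *ᵥ v = fromBlocks d.p 0 0 1 *ᵥ v := by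
    intro v
    have h1 := hY (X *ᵥ v)
    rw [Dt.K_fix (hX v)] at h1
    have h2 := (d'.K d).sub_mem h1 (Dt.K_symm (hX v))
    simp only [Prod.mk_sub_mk, sub_self] at h2
    obtain ⟨e1, e2⟩ := Dt.K_inj hL h2
    rw [← mulVec_mulVec, fromBlocks_mulVec, zero_mulVec, zero_mulVec, one_mulVec, add_zero, zero_add,
      ← sub_eq_zero.1 e1, ← sub_eq_zero.1 e2]
    ext (i | i) <;> rfl
  ext i j
  have := congrFun (key (Pi.single j 1)) i
  simpa only [mulVec_single_one, col_apply] using this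

theorem Dt.schanuel [CompleteSpace A] {d : Dt D m k} {d' : Dt D m' k'} (hL : d.Low d')
    (hL' : d'.Low d) (hp : d.p * d.p = d.p) (hp' : d'.p * d'.p = d'.p) :
    K0.mk ⟨d.p, hp⟩ - K0.mk (k := m) ⟨(1 : Matrix _ _ A), mul_one 1⟩ =
      K0.mk ⟨d'.p, hp'⟩ - K0.mk (k := m') ⟨1, mul_one 1⟩ := by
  obtain ⟨X, hX⟩ := Dt.half hL
  obtain ⟨Y, hY⟩ := Dt.half hL'
  have h := cls_mvn (idem_fromBlocks hp (mul_one 1)) (idem_fromBlocks hp' (mul_one 1)) Y X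
    (Dt.comp_eq hL' hX hY) (Dt.comp_eq hL hY hX)
  rw [cls_fromBlocks hp (mul_one 1), cls_fromBlocks hp' (mul_one 1)] at h
  rw [← cls_eq_mk, ← cls_eq_mk, ← cls_eq_mk, ← cls_eq_mk, sub_eq_sub_iff_add_eq_add]
  exact h

end Pool.Agent.Lib.TI
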