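import Pool.Agent.Lib.TI.IndDefs
import Pool.Agent.Lib.TI.Schan

/-! Uniqueness and naturality of `IsIndex`. -/

set_option linter.unusedSectionVars false

noncomputable section

open MulOpposite Matrix Filter Topology

namespace Pool.Agent.Lib.TI

open BCH

section ip
variable {A X Y : Type} [NormedRing A] [StarRing A] (κ : X → X → A)

/-- `ip` as a biadditive map -/
def ipHom : (X →₀ A) →+ (X →₀ A) →+ A :=
  Finsupp.liftAddHom fun x =>
    { toFun := fun a => Finsupp.liftAddHom fun y => AddMonoidHom.mulLeft (star a * κ x y)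
      map_zero' := by ext; simp
      map_add' := fun a b => by ext; simp [add_mul] }

theorem ipHom_apply (ξ η : X →₀ A) : ipHom κ ξ η = ip κ ξ η := by
  simp only [ipHom, ip, Finsupp.liftAddHom_apply, Finsupp.sum, AddMonoidHom.finsetSum_apply]
  rfl

theorem ip_add_left (ξ ξ' η : X →₀ A) : ip κ (ξ + ξ') η = ip κ ξ η + ip κ ξ' η := by
  simp only [← ipHom_apply, map_add, AddMonoidHom.add_apply]

theorem ip_add_right (ξ η η' : X →₀ A) : ip κ ξ (η + η') = ip κ ξ η + ip κ ξ η' := by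
  simp only [← ipHom_apply, map_add]

theorem ip_sub_left (ξ ξ' η : X →₀ A) : ip κ (ξ - ξ') η = ip κ ξ η - ip κ ξ' η := by
  simp only [← ipHom_apply, map_sub, AddMonoidHom.sub_apply]

theorem ip_sub_right (ξ η η' : X →₀ A) : ip κ ξ (η - η') = ip κ ξ η - ip κ ξ η' := by
  simp only [← ipHom_apply, map_sub]

theorem ip_neg_left (ξ η : X →₀ A) : ip κ (-ξ) η = -ip κ ξ η := by
  simp only [← ipHom_apply, map_neg, AddMonoidHom.neg_apply]

theorem ip_neg_right (ξ η : X →₀ A) : ip κ ξ (-η) = -ip κ ξ η := by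
  simp only [← ipHom_apply, map_neg]

@[simp] theorem ip_zero_left (η : X →₀ A) : ip κ 0 η = 0 := by simp [ip]

@[simp] theorem ip_zero_right (ξ : X →₀ A) : ip κ ξ 0 = 0 := by simp [ip]

theorem ip_sum_left {ι : Type} (s : Finset ι) (ξ : ι → X →₀ A) (η : X →₀ A) :
    ip κ (∑ i ∈ s, ξ i) η = ∑ i ∈ s, ip κ (ξ i) η := by
  simp only [← ipHom_apply, map_sum, AddMonoidHom.finsetSum_apply]

theorem ip_sum_right {ι : Type} (s : Finset ι) (ξ : X →₀ A) (η : ι → X →₀ A) :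
    ip κ ξ (∑ i ∈ s, η i) = ∑ i ∈ s, ip κ ξ (η i) := by
  simp only [← ipHom_apply, map_sum]

@[simp] theorem ip_single (x y : X) (a b : A) :
    ip κ (.single x a) (.single y b) = star a * κ x y * b := by
  simp [ip]

theorem ip_ind {P : (X →₀ A) → (X →₀ A) → Prop} (h0 : ∀ η, P 0 η) (h0' : ∀ ξ, P ξ 0)
    (h1 : ∀ ξ ξ' η, P ξ η → P ξ' η → P (ξ + ξ') η) (h2 : ∀ ξ η η', P ξ η → P ξ η' → P ξ (η + η'))
    (h : ∀ x a y b, P (.single x a) (.single y b)) (ξ η : X →₀ A) : P ξ η := by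
  induction ξ using Finsupp.induction_linear with
  | zero => exact h0 _
  | add f g hf hg => exact h1 _ _ _ hf hg
  | single x a =>
    induction η using Finsupp.induction_linear with
    | zero => exact h0' _
    | add f g hf hg => exact h2 _ _ _ hf hg
    | single y b => exact h _ _ _ _

theorem ip_smul_right (ξ η : X →₀ A) (c : A) : ip κ ξ (op c • η) = ip κ ξ η * c := by
  induction ξ, η using ip_ind with
  | h0 => simp
  | h0' => simp
  | h1 _ _ _ h h' => simp only [ip_add_left, h, h', add_mul]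
  | h2 _ _ _ h h' => simp only [smul_add, ip_add_right, h, h', add_mul]
  | h => rw [Finsupp.smul_single, ip_single, ip_single, op_smul_eq_mul, ← mul_assoc]

theorem ip_smul_left (ξ η : X →₀ A) (c : A) : ip κ (op c • ξ) η = star c * ip κ ξ η := by
  induction ξ, η using ip_ind with
  | h0 => simp
  | h0' => simp
  | h1 _ _ _ h h' => simp only [smul_add, ip_add_left, h, h', mul_add]
  | h2 _ _ _ h h' => simp only [ip_add_right, h, h', mul_add]
  | h => simp only [Finsupp.smul_single, ip_single, op_smul_eq_mul, star_mul, mul_assoc]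

theorem star_ip (hκ : ∀ x y, star (κ x y) = κ y x) (ξ η : X →₀ A) :
    star (ip κ ξ η) = ip κ η ξ := by
  induction ξ, η using ip_ind with
  | h0 => simp
  | h0' => simp
  | h1 _ _ _ h h' => simp only [ip_add_left, ip_add_right, star_add, h, h']
  | h2 _ _ _ h h' => simp only [ip_add_left, ip_add_right, star_add, h, h']
  | h => simp [mul_assoc, hκ]

theorem ip_comb {ι ι' : Type} [Fintype ι] [Fintype ι'] (v : ι → X →₀ A) (w : ι' → X →₀ A)
    (c : ι → A) (d : ι' → A) : ip κ (∑ i, op (c i) • v i) (∑ j, op (d j) • w j) =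
      ∑ i, ∑ j, star (c i) * ip κ (v i) (w j) * d j := by
  rw [ip_sum_left]
  simp only [ip_sum_right, ip_smul_left, ip_smul_right, mul_assoc]

end ip

/-- the order properties of a real `C*`-algebra used below -/
structure OrdC (A : Type) [NormedRing A] [StarRing A] [NormedAlgebra ℝ A] [PartialOrder A] :
    Prop where
  conj : ∀ y a : A, 0 ≤ y → 0 ≤ star a * y * a
  one : (0 : A) ≤ 1
  smul : ∀ (c : ℝ) (y : A), 0 ≤ c → 0 ≤ y → 0 ≤ c • y
  norm_le : ∀ x y : A, 0 ≤ x → x ≤ y → ‖x‖ ≤ ‖y‖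
  le_norm : ∀ y : A, star y = y → y ≤ ‖y‖ • 1
  sa : ∀ y : A, 0 ≤ y → star y = y
  closed : IsClosed {x : A | 0 ≤ x}

/-- a positive kernel -/
structure PosK {A X : Type} [NormedRing A] [StarRing A] [LE A] (κ : X → X → A) : Prop where
  herm : ∀ x y, star (κ x y) = κ y x
  pos : ∀ ξ, 0 ≤ ip κ ξ ξ

section norm
variable {A X Y : Type} [NormedRing A] [StarRing A] [NormedAlgebra ℝ A] [StarModule ℝ A]
  [CStarRing A] [PartialOrder A] [IsOrderedAddMonoid A] {κ : X → X → A}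

theorem OrdC.sq (h : OrdC A) (a : A) : 0 ≤ star a * a := by simpa using h.conj 1 a h.one

theorem OrdC.conj_le (h : OrdC A) (y a : A) (hy : star y = y) :
    star a * y * a ≤ ‖y‖ • (star a * a) := by
  have := h.conj _ a (sub_nonneg.2 (h.le_norm y hy))
  rw [mul_sub, sub_mul, sub_nonneg] at this
  simpa using this

theorem OrdC.dot (h : OrdC A) {ι : Type} [Fintype ι] (a : ι → A) : 0 ≤ star a ⬝ᵥ a :=
  Finset.sum_nonneg fun i _ => h.sq (a i)

theorem OrdC.norm_sq_le (h : OrdC A) {ι : Type} [Fintype ι] (a : ι → A) :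
    ‖a‖ ^ 2 ≤ ‖star a ⬝ᵥ a‖ := by
  have : ‖a‖ ≤ √‖star a ⬝ᵥ a‖ := by
    refine (pi_norm_le_iff_of_nonneg (Real.sqrt_nonneg _)).2 fun i => Real.le_sqrt_of_sq_le ?_
    rw [_root_.sq, ← CStarRing.norm_star_mul_self]
    exact h.norm_le _ _ (h.sq _)
      (Finset.single_le_sum (f := fun i => star (a i) * a i) (fun j _ => h.sq _) (Finset.mem_univ i))
  exact (pow_le_pow_left₀ (norm_nonneg _) this 2).trans (Real.sq_sqrt (norm_nonneg _)).le

theorem norm_dot_le {ι : Type} [Fintype ι] (a : ι → A) :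
    ‖star a ⬝ᵥ a‖ ≤ Fintype.card ι * ‖a‖ ^ 2 := by
  refine (norm_sum_le _ _).trans ?_
  refine (Finset.sum_le_card_nsmul _ _ (‖a‖ ^ 2) fun i _ => ?_).trans (by simp)
  rw [Pi.star_apply, CStarRing.norm_star_mul_self, ← sq]
  exact pow_le_pow_left₀ (norm_nonneg _) (norm_le_pi_norm a i) 2

theorem cauchy_schwarz (h : OrdC A) (hκ : PosK κ) (ξ η : X →₀ A) :
    ‖ip κ ξ η‖ ^ 2 ≤ ‖ip κ ξ ξ‖ * ‖ip κ η η‖ := by
  set x := ip κ ξ η with hx
  set s := ‖ip κ ξ ξ‖
  set u := ‖ip κ η η‖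
  have key : ∀ t : ℝ, 0 ≤ s * ‖x‖ ^ 2 * (t * t) + -(2 * ‖x‖ ^ 2) * t + u := by
    intro t
    have h1 := hκ.pos (op (t • x) • ξ - η)
    rw [ip_sub_left, ip_sub_right, ip_sub_right, ip_smul_left, ip_smul_left, ip_smul_right,
      ip_smul_right, ← star_ip κ hκ.herm ξ η, ← hx, ← mul_assoc] at h1
    have h2 := h.conj_le (ip κ ξ ξ) (t • x) (star_ip κ hκ.herm ξ ξ)
    have h3 : (2 * t - s * (t * t)) • (star x * x) ≤ ip κ η η := by
      rw [← sub_nonneg]
      have := add_nonneg h1 (sub_nonneg.2 h2)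
      convert this using 1
      simp only [star_smul, star_trivial, smul_mul_assoc, mul_smul_comm, smul_smul, sub_smul,
        two_mul, add_smul, s]
      abel
    by_cases ht : 0 ≤ 2 * t - s * (t * t)
    · have := h.norm_le _ _ (h.smul _ _ ht (h.sq x)) h3
      rw [norm_smul, Real.norm_of_nonneg ht, CStarRing.norm_star_mul_self] at this
      nlinarith
    · have : 0 ≤ u := norm_nonneg _
      nlinarith [mul_nonneg (neg_nonneg.2 (not_le.1 ht).le) (sq_nonneg ‖x‖)]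
  have := discrim_le_zero key
  rw [discrim] at this
  rcases (sq_nonneg ‖x‖).eq_or_lt with h0 | h0
  · rw [← h0]; positivity
  · nlinarith

theorem le_of_sq' {a b : ℝ} (h : a ^ 2 ≤ b ^ 2) (hb : 0 ≤ b) : a ≤ b := abs_le_of_sq_le_sq' h hb |>.2

/-- the seminorm of the kernel -/
def nrm (κ : X → X → A) (ξ : X →₀ A) : ℝ := √‖ip κ ξ ξ‖

theorem nrm_nonneg (ξ : X →₀ A) : 0 ≤ nrm κ ξ := Real.sqrt_nonneg _

theorem nrm_sq (ξ : X →₀ A) : nrm κ ξ ^ 2 = ‖ip κ ξ ξ‖ := Real.sq_sqrt (norm_nonneg _)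

theorem norm_ip_le (h : OrdC A) (hκ : PosK κ) (ξ η : X →₀ A) :
    ‖ip κ ξ η‖ ≤ nrm κ ξ * nrm κ η := by
  refine le_of_sq' ?_ (mul_nonneg (nrm_nonneg _) (nrm_nonneg _))
  rw [mul_pow, nrm_sq, nrm_sq]
  exact cauchy_schwarz h hκ ξ η

theorem nrm_add_le (h : OrdC A) (hκ : PosK κ) (ξ η : X →₀ A) :
    nrm κ (ξ + η) ≤ nrm κ ξ + nrm κ η := by
  refine le_of_sq' ?_ (add_nonneg (nrm_nonneg _) (nrm_nonneg _))
  rw [nrm_sq, ip_add_left, ip_add_right, ip_add_right]
  have h1 := norm_ip_le h hκ ξ η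
  have h2 := norm_ip_le h hκ η ξ
  have h3 := nrm_sq (κ := κ) ξ
  have h4 := nrm_sq (κ := κ) η
  refine ((norm_add_le _ _).trans (add_le_add (norm_add_le _ _) (norm_add_le _ _))).trans ?_
  nlinarith

theorem nrm_smul_le (ξ : X →₀ A) (c : A) : nrm κ (op c • ξ) ≤ nrm κ ξ * ‖c‖ := by
  refine le_of_sq' ?_ (mul_nonneg (nrm_nonneg _) (norm_nonneg _))
  rw [nrm_sq, mul_pow, nrm_sq, ip_smul_left, ip_smul_right]
  refine (norm_mul_le _ _).trans ?_
  rw [norm_star]
  nlinarith [mul_le_mul_of_nonneg_left (norm_mul_le (ip κ ξ ξ) c) (norm_nonneg c)]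

/-- the seminormed structure of a positive kernel -/
@[reducible] def semi (h : OrdC A) (hκ : PosK κ) : SeminormedAddCommGroup (X →₀ A) :=
  AddGroupSeminorm.toSeminormedAddCommGroup
    { toFun := nrm κ
      map_zero' := by simp [nrm]
      add_le' := nrm_add_le h hκ
      neg' := fun ξ => by simp [nrm, ip_neg_left, ip_neg_right] }

theorem exists_mulVec_le {ι ι' : Type} [Fintype ι] [Fintype ι'] (M : Matrix ι ι' A) :
    ∃ c : ℝ, 0 ≤ c ∧ ∀ v, ‖M *ᵥ v‖ ≤ c * ‖v‖ := by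
  refine ⟨∑ i, ∑ j, ‖M i j‖, by positivity, fun v => ?_⟩
  refine (pi_norm_le_iff_of_nonneg (by positivity)).2 fun i => (norm_sum_le _ _).trans ?_
  refine le_trans ?_ (mul_le_mul_of_nonneg_right (Finset.single_le_sum
    (f := fun i => ∑ j, ‖M i j‖) (fun _ _ => by positivity) (Finset.mem_univ i)) (norm_nonneg v))
  rw [Finset.sum_mul]
  exact Finset.sum_le_sum fun j _ => (norm_mul_le _ _).trans
    (mul_le_mul_of_nonneg_left (norm_le_pi_norm v j) (norm_nonneg _))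

theorem mulVec_op {ι ι' : Type} [Fintype ι'] (M : Matrix ι ι' A) (c : Aᵐᵒᵖ) (v : ι' → A) :
    M *ᵥ (c • v) = c • (M *ᵥ v) := mulVec_smul M c v

theorem low_of_le (h : OrdC A) (hκ : PosK κ) {κ' : Y → Y → A} (hκ' : PosK κ') {m k : ℕ} {C : ℝ}
    {ξ : X →₀ A} {ζ q : Y →₀ A} {a : Fin m → A} {b : Fin k → A}
    (hle : ip κ ξ ξ + ip κ' ζ ζ + star a ⬝ᵥ a ≤ C • (ip κ' q q + star b ⬝ᵥ b)) :
    ‖a‖ ≤ √(|C| * (1 + k)) * (nrm κ' q + ‖b‖) ∧ nrm κ ξ ≤ √(|C| * (1 + k)) * (nrm κ' q + ‖b‖) := by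
  have h1 := hκ.pos ξ
  have h2 := hκ'.pos ζ
  have h3 := h.dot a
  have hb : ‖C • (ip κ' q q + star b ⬝ᵥ b)‖ ≤ (√(|C| * (1 + k)) * (nrm κ' q + ‖b‖)) ^ 2 := by
    rw [norm_smul, mul_pow, Real.sq_sqrt (by positivity), Real.norm_eq_abs, mul_assoc]
    refine mul_le_mul_of_nonneg_left ((norm_add_le _ _).trans ?_) (abs_nonneg _)
    have e1 := norm_dot_le b
    rw [Fintype.card_fin] at e1
    have e2 := nrm_nonneg (κ := κ') q
    have e3 := norm_nonneg b
    have e4 : (0 : ℝ) ≤ k := Nat.cast_nonneg k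
    rw [← nrm_sq]
    nlinarith [mul_nonneg e2 e3, mul_nonneg e4 (mul_nonneg e2 e3), mul_nonneg e4 (sq_nonneg (nrm κ' q))]
  have hp : 0 ≤ √(|C| * (1 + k)) * (nrm κ' q + ‖b‖) :=
    mul_nonneg (Real.sqrt_nonneg _) (add_nonneg (nrm_nonneg _) (norm_nonneg _))
  constructor
  · refine le_of_sq' ((h.norm_sq_le a).trans ((h.norm_le _ _ h3 (le_trans ?_ hle)).trans hb)) hp
    exact le_add_of_nonneg_left (add_nonneg h1 h2)
  · refine le_of_sq' ?_ hp
    rw [nrm_sq]
    refine (h.norm_le _ _ h1 (le_trans ?_ hle)).trans hb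
    rw [add_assoc]
    exact le_add_of_nonneg_right (add_nonneg h2 h3)

/-- The index is unique. -/
theorem IsIndex.unique [CompleteSpace A] (h : OrdC A) (hκ : PosK κ) {κ' : Y → Y → A}
    (hκ' : PosK κ') {D : X → Y} {z z' : K0 A} (hz : IsIndex κ κ' D z) (hz' : IsIndex κ κ' D z') :
    z = z' := by
  let _ := semi h hκ'
  have hn : ∀ ξ : Y →₀ A, ‖ξ‖ = nrm κ' ξ := fun _ => rfl
  have : ContinuousConstSMul Aᵐᵒᵖ (Y →₀ A) := ⟨fun c =>
    AddMonoidHomClass.continuous_of_bound (DistribSMul.toAddMonoidHom (Y →₀ A) c) ‖c.unop‖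
      fun ξ => by rw [mul_comm]; exact nrm_smul_le ξ c.unop⟩
  have main : ∀ z, IsIndex κ κ' D z → ∃ (m k : ℕ) (d : Dt (Finsupp.lmapDomain A Aᵐᵒᵖ D) m k)
      (hp : d.p * d.p = d.p) (C c : ℝ), 0 ≤ C ∧ 0 ≤ c ∧ (∀ ξ, ‖d.T ξ‖ ≤ c * nrm κ ξ) ∧
      (∀ ξ a, ‖a‖ ≤ C * (‖ξ.mapDomain D + d.R a‖ + ‖d.T ξ + d.B a‖) ∧
        nrm κ ξ ≤ C * (‖ξ.mapDomain D + d.R a‖ + ‖d.T ξ + d.B a‖)) ∧
      z = K0.mk ⟨d.p, hp⟩ - K0.mk (k := m) ⟨1, mul_one 1⟩ := by
    rintro z ⟨m, k, r, t, B, p, C, Q, P, hQ, hP, hi, hii, rfl⟩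
    let R : (Fin m → A) →ₗ[Aᵐᵒᵖ] (Y →₀ A) :=
      { toFun := fun a => ∑ i, op (a i) • r i
        map_add' := fun a b => by simp only [Pi.add_apply, op_add, add_smul, Finset.sum_add_distrib]
        map_smul' := fun c a => by
          simp only [Pi.smul_apply, RingHom.id_apply, Finset.smul_sum, smul_smul]; rfl }
    let T : (X →₀ A) →ₗ[Aᵐᵒᵖ] (Fin k → A) :=
      { toFun := fun ξ => p.1 *ᵥ fun j => ip κ (t j) ξ
        map_add' := fun a b => by
          rw [← mulVec_add]; congr 1; ext j; exact ip_add_right κ _ _ _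
        map_smul' := fun c a => by
          rw [RingHom.id_apply, ← mulVec_op]; congr 1; ext j; exact ip_smul_right κ _ _ c.unop }
    let B' : (Fin m → A) →ₗ[Aᵐᵒᵖ] (Fin k → A) :=
      { toFun := fun a => p.1 *ᵥ B *ᵥ a
        map_add' := fun a b => by rw [mulVec_add, mulVec_add]
        map_smul' := fun c a => by rw [RingHom.id_apply, mulVec_op, mulVec_op] }
    have hP' : ∀ ξ a, T ξ + B' a = P ξ a := fun ξ a => by rw [hP, mulVec_add]; rfl
    have hQ' : ∀ ξ a, ξ.mapDomain D + R a = Q ξ a := fun ξ a => (hQ ξ a).symm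
    have cR : Continuous R := by
      refine AddMonoidHomClass.continuous_of_bound R (∑ i, ‖r i‖) fun a => ?_
      refine (norm_sum_le Finset.univ fun i => op (a i) • r i).trans ?_
      rw [Finset.sum_mul]
      exact Finset.sum_le_sum fun i _ => (nrm_smul_le _ _).trans
        (mul_le_mul_of_nonneg_left (norm_le_pi_norm a i) (nrm_nonneg _))
    have cB : Continuous fun a : Fin m → A => p.1 *ᵥ B *ᵥ a :=
      continuous_const.matrix_mulVec (continuous_const.matrix_mulVec continuous_id)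
    obtain ⟨c, hc0, hc⟩ := exists_mulVec_le p.1
    refine ⟨m, k, ⟨R, T, B', p.1, cR, cB,
      fun ξ => by simp only [T, LinearMap.coe_mk, AddHom.coe_mk, mulVec_mulVec, p.2],
      fun a => by simp only [B', LinearMap.coe_mk, AddHom.coe_mk, mulVec_mulVec, ← Matrix.mul_assoc, p.2],
      fun η b ε hε => ?_⟩, p.2, √(|C| * (1 + k)), c * ∑ j, nrm κ (t j), Real.sqrt_nonneg _,
      mul_nonneg hc0 (Finset.sum_nonneg fun _ _ => nrm_nonneg _), fun ξ => ?_, fun ξ a => ?_, rfl⟩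
    · obtain ⟨ξ, a, h1, h2⟩ := hii η b (min ε (ε ^ 2)) (by positivity)
      refine ⟨ξ, a, ?_, by rw [hP']; exact h2.trans_le (min_le_left _ _)⟩
      rw [Finsupp.lmapDomain_apply, hQ', hn]
      exact (Real.sqrt_lt' hε).2 (h1.trans_le (min_le_right _ _))
    · refine (hc _).trans ?_
      rw [mul_assoc]
      refine mul_le_mul_of_nonneg_left ((pi_norm_le_iff_of_nonneg (mul_nonneg
        (Finset.sum_nonneg fun _ _ => nrm_nonneg _) (nrm_nonneg _))).2 fun j => ?_) hc0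
      exact (norm_ip_le h hκ _ _).trans (mul_le_mul_of_nonneg_right (Finset.single_le_sum
        (f := fun j => nrm κ (t j)) (fun _ _ => nrm_nonneg _) (Finset.mem_univ j)) (nrm_nonneg _))
    · dsimp only
      rw [hP', hQ', hn]
      exact low_of_le h hκ hκ' (hi ξ a)
  obtain ⟨m, k, d, hp, C, c, hC, hc, h1, h2, rfl⟩ := main z hz
  obtain ⟨m', k', d', hp', C', c', hC', hc', h1', h2', rfl⟩ := main z' hz'
  have aux : ∀ {x y C c s : ℝ}, 0 ≤ C → 0 ≤ c → 0 ≤ s → ∀ {w : ℝ}, x ≤ C * s ∧ w ≤ C * s →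
      y ≤ c * w → x ≤ (C + c * C) * s ∧ y ≤ (C + c * C) * s := by
    intro x y C c s hC hc hs w h1 h2
    have e1 := mul_nonneg hC hs
    have e2 := mul_nonneg hc e1
    have e3 := mul_le_mul_of_nonneg_left h1.2 hc
    constructor <;> nlinarith [h1.1]
  exact Dt.schanuel
    ⟨C + c' * C, by positivity, fun ξ a => aux hC hc' (by positivity) (h2 ξ a) (h1' ξ)⟩
    ⟨C' + c * C', by positivity, fun ξ a => aux hC' hc (by positivity) (h2' ξ a) (h1 ξ)⟩ hp hp'

end norm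

end Pool.Agent.Lib.TI
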