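import Pool.Agent.Lib.BCH.KDefs

/-! The Mishchenko–Fomenko index of a closed operator between Hilbert modules, read on a core. -/

noncomputable section

open MulOpposite Matrix

namespace Pool.Agent.Lib.TI

open BCH (K0 Idem)

variable {A X Y : Type} [NormedRing A] [StarRing A]

/-- The `A`-valued inner product on the free right `A`-module on `X` given by the kernel `κ`. -/
def ip (κ : X → X → A) (ξ η : X →₀ A) : A :=
  ξ.sum fun x a => η.sum fun y b => star a * κ x y * b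

/-- `E`, `F` are the Hilbert `A`-modules completing the free modules on `X`, `Y` for the kernels
`κ`, `κ'`, and `D` is the closure of the operator `E → F` induced by `D : X → Y`. Its index is
`[p] - m [1]` if `(ξ, a) ↦ (D ξ + r a, p (⟨t, ξ⟩ + B a))` is bounded below for the graph inner
product and has dense range, that is, if it is an isomorphism `dom D ⊕ Aᵐ → F ⊕ p Aᵏ`. -/
def IsIndex [SMul ℝ A] [LE A] (κ : X → X → A) (κ' : Y → Y → A) (D : X → Y) (z : K0 A) : Prop :=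
  ∃ (m k : ℕ) (r : Fin m → Y →₀ A) (t : Fin k → X →₀ A) (B : Matrix (Fin k) (Fin m) A)
    (p : Idem A k) (C : ℝ) (Q : (X →₀ A) → (Fin m → A) → Y →₀ A)
    (P : (X →₀ A) → (Fin m → A) → Fin k → A),
    (∀ ξ a, Q ξ a = ξ.mapDomain D + ∑ i, op (a i) • r i) ∧
    (∀ ξ a, P ξ a = p.1 *ᵥ ((fun j => ip κ (t j) ξ) + B *ᵥ a)) ∧
    (∀ ξ a, ip κ ξ ξ + ip κ' (ξ.mapDomain D) (ξ.mapDomain D) + star a ⬝ᵥ a ≤
      C • (ip κ' (Q ξ a) (Q ξ a) + star (P ξ a) ⬝ᵥ P ξ a)) ∧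
    (∀ η b, ∀ ε > 0, ∃ ξ a, ‖ip κ' (Q ξ a - η) (Q ξ a - η)‖ < ε ∧ ‖P ξ a - p.1 *ᵥ b‖ < ε) ∧
    z = K0.mk p - K0.mk (k := m) ⟨1, mul_one 1⟩

end Pool.Agent.Lib.TI
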