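import Pool.Agent.Lib.TI.Ind

/-! Naturality of `IsIndex`. -/

set_option linter.unusedSectionVars false

noncomputable section

open MulOpposite Matrix Filter Topology

namespace Pool.Agent.Lib.TI

open BCH

variable {A A' X Y X' Y' : Type} [NormedRing A] [StarRing A] [NormedAlgebra ℝ A]
  [NormedRing A'] [StarRing A'] [NormedAlgebra ℝ A']

/-- push forward of test vectors -/
def push (Φ : A →⋆ₐ[ℝ] A') (e : X → X') : (X →₀ A) →+ (X' →₀ A') :=
  Finsupp.liftAddHom fun x => (Finsupp.singleAddHom (e x)).comp (Φ : A →+ A')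

@[simp] theorem push_single (Φ : A →⋆ₐ[ℝ] A') (e : X → X') (x : X) (a : A) :
    push Φ e (.single x a) = .single (e x) (Φ a) := by simp [push]

theorem push_smul (Φ : A →⋆ₐ[ℝ] A') (e : X → X') (ξ : X →₀ A) (c : A) :
    push Φ e (op c • ξ) = op (Φ c) • push Φ e ξ := by
  induction ξ using Finsupp.induction_linear with
  | zero => simp
  | add f g hf hg => simp only [smul_add, map_add, hf, hg]
  | single x a => simp only [Finsupp.smul_single, push_single, op_smul_eq_mul, map_mul]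

theorem push_mapDomain (Φ : A →⋆ₐ[ℝ] A') {eX : X → X'} {eY : Y → Y'} {D : X → Y} {D' : X' → Y'}
    (h : ∀ x, D' (eX x) = eY (D x)) (ξ : X →₀ A) :
    push Φ eY (ξ.mapDomain D) = (push Φ eX ξ).mapDomain D' := by
  induction ξ using Finsupp.induction_linear with
  | zero => simp
  | add f g hf hg => simp only [Finsupp.mapDomain_add, map_add, hf, hg]
  | single x a => simp only [Finsupp.mapDomain_single, push_single, h]

theorem ip_push (Φ : A →⋆ₐ[ℝ] A') {e : X → X'} {κ : X → X → A} {κ' : X' → X' → A'}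
    (h : ∀ x y, κ' (e x) (e y) = Φ (κ x y)) (ξ η : X →₀ A) :
    ip κ' (push Φ e ξ) (push Φ e η) = Φ (ip κ ξ η) := by
  induction ξ, η using ip_ind with
  | h0 => simp
  | h0' => simp
  | h1 _ _ _ h h' => simp only [map_add, ip_add_left, h, h']
  | h2 _ _ _ h h' => simp only [map_add, ip_add_right, h, h']
  | h => simp [h, map_star]

/-- combinations of basis vectors -/
def comb {ι : Type} [Fintype ι] (v : ι → X') (c : ι → A') : X' →₀ A' :=
  ∑ i, op (c i) • Finsupp.single (v i) 1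

theorem exists_comb {e : X → X'} (he : Function.Surjective e) (ξ : X' →₀ A') :
    ∃ (n : ℕ) (v : Fin n → X) (c : Fin n → A'), ξ = comb (e ∘ v) c := by
  refine ⟨_, fun i => Function.surjInv he ((Fintype.equivFin ξ.support).symm i),
    fun i => ξ ((Fintype.equivFin ξ.support).symm i), ?_⟩
  simp only [comb, Function.comp, Function.surjInv_eq, Finsupp.smul_single, op_smul_eq_mul, one_mul]
  rw [(Fintype.equivFin ξ.support).symm.sum_comp
    (fun x : ξ.support => Finsupp.single x.1 (ξ x.1)), Finset.sum_coe_sort ξ.support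
    (fun x => Finsupp.single x (ξ x))]
  exact (Finsupp.sum_single ξ).symm

theorem push_comb (Φ : A →⋆ₐ[ℝ] A') (e : X → X') {ι : Type} [Fintype ι] (v : ι → X) (c : ι → A) :
    push Φ e (comb v c) = comb (e ∘ v) (Φ ∘ c) := by
  simp only [comb, map_sum, push_smul, push_single, map_one, Function.comp]

theorem mapDomain_comb {ι : Type} [Fintype ι] (D : X' → Y') (v : ι → X') (c : ι → A') :
    (comb v c).mapDomain D = comb (D ∘ v) c := by
  simp only [comb, Finsupp.mapDomain_finsetSum, Finsupp.smul_single, Finsupp.mapDomain_single,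
    Function.comp]

/-- maps to test vectors that are finite combinations with continuous coefficients -/
def Cts {Z : Type} [TopologicalSpace Z] (F : Z → X' →₀ A') : Prop :=
  ∃ (ι : Type) (_ : Fintype ι) (v : ι → X' →₀ A') (c : Z → ι → A'), Continuous c ∧
    ∀ z, F z = ∑ i, op (c z i) • v i

section
variable {Z : Type} [TopologicalSpace Z]

theorem Cts.add {F G : Z → X' →₀ A'} (hF : Cts F) (hG : Cts G) : Cts fun z => F z + G z := by
  obtain ⟨ι, _, v, c, hc, h⟩ := hF
  obtain ⟨ι', _, v', c', hc', h'⟩ := hG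
  refine ⟨ι ⊕ ι', inferInstance, Sum.elim v v', fun z => Sum.elim (c z) (c' z), ?_, fun z => ?_⟩
  · refine continuous_pi ?_
    rintro (i | i)
    · exact (continuous_apply i).comp hc
    · exact (continuous_apply i).comp hc'
  · simp [h, h', Fintype.sum_sum_type]

theorem cts_const (w : X' →₀ A') : Cts fun _ : Z => w :=
  ⟨Unit, inferInstance, fun _ => w, fun _ _ => 1, continuous_const, fun _ => by simp⟩

theorem cts_sum {ι : Type} [Fintype ι] (v : ι → X' →₀ A') {c : Z → ι → A'} (hc : Continuous c) :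
    Cts fun z => ∑ i, op (c z i) • v i := ⟨ι, inferInstance, v, c, hc, fun _ => rfl⟩

theorem Cts.ip [ContinuousStar A'] (κ : X' → X' → A') {F G : Z → X' →₀ A'} (hF : Cts F)
    (hG : Cts G) : Continuous fun z => ip κ (F z) (G z) := by
  obtain ⟨ι, _, v, c, hc, h⟩ := hF
  obtain ⟨ι', _, v', c', hc', h'⟩ := hG
  simp only [h, h', ip_comb]
  fun_prop

end

theorem map_dot (Φ : A →⋆ₐ[ℝ] A') {ι : Type} [Fintype ι] (a : ι → A) :
    star (Φ ∘ a) ⬝ᵥ (Φ ∘ a) = Φ (star a ⬝ᵥ a) := by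
  simp [dotProduct, map_sum, map_star]

theorem map_mulVec' (Φ : A →⋆ₐ[ℝ] A') {ι ι' : Type} [Fintype ι'] (M : Matrix ι ι' A) (a : ι' → A) :
    M.map Φ *ᵥ (Φ ∘ a) = Φ ∘ (M *ᵥ a) := by
  ext i; simp [mulVec, dotProduct, map_sum]

variable [PartialOrder A] [StarModule ℝ A'] [CStarRing A'] [PartialOrder A'] [IsOrderedAddMonoid A']

/-- The index is natural for continuous monotone star homomorphisms with dense range. -/
theorem IsIndex.map (h : OrdC A') (Φ : A →⋆ₐ[ℝ] A') (hc : Continuous Φ) (hm : Monotone Φ)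
    (hd : DenseRange Φ) {κ₁ : X → X → A} {κ₂ : Y → Y → A} {κ₁' : X' → X' → A'}
    {κ₂' : Y' → Y' → A'} (hκ : PosK κ₂') {D : X → Y} {D' : X' → Y'} {eX : X → X'} {eY : Y → Y'}
    (sX : Function.Surjective eX) (sY : Function.Surjective eY)
    (h₁ : ∀ x y, κ₁' (eX x) (eX y) = Φ (κ₁ x y)) (h₂ : ∀ x y, κ₂' (eY x) (eY y) = Φ (κ₂ x y))
    (hD : ∀ x, D' (eX x) = eY (D x)) {z : K0 A} (hz : IsIndex κ₁ κ₂ D z) :
    IsIndex κ₁' κ₂' D' (K0.map (Φ : A →ₙ+* A') z) := by
  obtain ⟨m, k, r, t, B, p, C, Q, P, hQ, hP, hi, hii, rfl⟩ := hz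
  set Q' : (X' →₀ A') → (Fin m → A') → Y' →₀ A' :=
    fun ξ a => ξ.mapDomain D' + ∑ i, op (a i) • push Φ eY (r i) with hQ'
  set P' : (X' →₀ A') → (Fin m → A') → Fin k → A' :=
    fun ξ a => p.1.map Φ *ᵥ ((fun j => ip κ₁' (push Φ eX (t j)) ξ) + B.map Φ *ᵥ a) with hP'
  have eQ : ∀ ξ a, Q' (push Φ eX ξ) (Φ ∘ a) = push Φ eY (Q ξ a) := fun ξ a => by
    simp only [hQ', hQ, map_add, map_sum, push_smul, push_mapDomain Φ hD, Function.comp]
  have eP : ∀ ξ a, P' (push Φ eX ξ) (Φ ∘ a) = Φ ∘ P ξ a := fun ξ a => by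
    simp only [hP', hP, ← map_mulVec', ip_push Φ h₁]
    congr 1
    ext j
    simp only [map_mulVec', Pi.add_apply, Function.comp, map_add]
  have dense : ∀ ι ι' : Type, DenseRange fun c : (ι → A) × (ι' → A) => (Φ ∘ c.1, Φ ∘ c.2) :=
    fun ι ι' => (DenseRange.piMap fun _ => hd).prodMap (DenseRange.piMap fun _ => hd)
  refine ⟨m, k, fun i => push Φ eY (r i), fun j => push Φ eX (t j), B.map Φ,
    ⟨p.1.map Φ, idem_map p.2 (Φ : A →ₙ+* A')⟩, C, Q', P', fun _ _ => rfl, fun _ _ => rfl,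
    fun ξ a => ?_, fun η b ε hε => ?_, ?_⟩
  · obtain ⟨n, v, c, rfl⟩ := exists_comb sX ξ
    refine (dense (Fin n) (Fin m)).induction_on (p := fun w : (Fin n → A') × (Fin m → A') =>
      ip κ₁' (comb (eX ∘ v) w.1) (comb (eX ∘ v) w.1) + ip κ₂' ((comb (eX ∘ v) w.1).mapDomain D')
        ((comb (eX ∘ v) w.1).mapDomain D') + star w.2 ⬝ᵥ w.2 ≤
      C • (ip κ₂' (Q' (comb (eX ∘ v) w.1) w.2) (Q' (comb (eX ∘ v) w.1) w.2) +
        star (P' (comb (eX ∘ v) w.1) w.2) ⬝ᵥ P' (comb (eX ∘ v) w.1) w.2)) (c, a) ?_ ?_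
    · have c1 : Cts fun w : (Fin n → A') × (Fin m → A') => comb (eX ∘ v) w.1 :=
        cts_sum _ continuous_fst
      have c2 : Cts fun w : (Fin n → A') × (Fin m → A') => (comb (eX ∘ v) w.1).mapDomain D' := by
        simp only [mapDomain_comb]; exact cts_sum _ continuous_fst
      have c3 : Cts fun w : (Fin n → A') × (Fin m → A') => Q' (comb (eX ∘ v) w.1) w.2 :=
        c2.add (cts_sum _ continuous_snd)
      have c4 : Continuous fun w : (Fin n → A') × (Fin m → A') => P' (comb (eX ∘ v) w.1) w.2 :=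
        continuous_const.matrix_mulVec ((continuous_pi fun j => (cts_const _).ip κ₁' c1).add
          (continuous_const.matrix_mulVec continuous_snd))
      simp only [← sub_nonneg (b := _ + _ + _)]
      refine h.closed.preimage (Continuous.sub (Continuous.const_smul ((c3.ip _ c3).add ?_) C)
        (((c1.ip _ c1).add (c2.ip _ c2)).add ?_))
      · exact c4.star.dotProduct c4
      · exact continuous_snd.star.dotProduct continuous_snd
    · intro w
      have := hm (hi (comb v w.1) w.2)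
      simp only [← push_comb, eQ, eP, ← push_mapDomain Φ hD, ip_push Φ h₁, ip_push Φ h₂, map_dot]
      simpa only [map_add, map_smul] using this
  · obtain ⟨n, v, c, rfl⟩ := exists_comb sY η
    obtain ⟨δ, hδ, hδ1, hδ2⟩ : ∃ δ : ℝ, 0 < δ ∧ 2 * δ < ε ∧ (2 * δ) ^ 2 < ε :=
      ⟨min ε 1 / 4, by positivity, by linarith [min_le_left ε 1], by
        nlinarith [min_le_left ε 1, min_le_right ε 1, lt_min hε one_pos]⟩
    have c1 : Cts fun w : (Fin n → A') × (Fin k → A') => comb (eY ∘ v) w.1 + -comb (eY ∘ v) c :=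
      (cts_sum _ continuous_fst).add (cts_const _)
    have o1 : IsOpen {w : (Fin n → A') × (Fin k → A') |
        nrm κ₂' (comb (eY ∘ v) w.1 + -comb (eY ∘ v) c) < δ ∧
        ‖p.1.map Φ *ᵥ w.2 - p.1.map Φ *ᵥ b‖ < δ} :=
      (isOpen_lt (c1.ip _ c1).norm.sqrt continuous_const).inter (isOpen_lt
        ((continuous_const.matrix_mulVec continuous_snd).sub continuous_const).norm continuous_const)
    obtain ⟨w, hw1, hw2⟩ := (dense (Fin n) (Fin k)).exists_mem_open o1
      ⟨(c, b), by simpa [nrm] using hδ⟩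
    obtain ⟨γ, hγ, hγ'⟩ := Metric.continuousAt_iff.1 (hc.continuousAt (x := 0)) (min δ (δ ^ 2) / 2)
      (by positivity)
    simp only [map_zero, dist_zero_right] at hγ'
    obtain ⟨ξ, a, e1, e2⟩ := hii (comb v w.1) w.2 γ hγ
    refine ⟨push Φ eX ξ, Φ ∘ a, ?_, ?_⟩
    · have f1 : nrm κ₂' (push Φ eY (Q ξ a - comb v w.1)) < δ := by
        rw [nrm, ip_push Φ h₂]
        refine (Real.sqrt_lt' hδ).2 ((hγ' e1).trans ?_)
        have := min_le_right δ (δ ^ 2)
        nlinarith [pow_pos hδ 2]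
      have f2 := nrm_add_le h hκ (push Φ eY (Q ξ a - comb v w.1))
        (comb (eY ∘ v) (Φ ∘ w.1) + -comb (eY ∘ v) c)
      rw [map_sub, push_comb, ← add_assoc, sub_add_cancel, ← sub_eq_add_neg, ← eQ] at f2
      rw [map_sub, push_comb, ← eQ] at f1
      rw [← nrm_sq]
      refine lt_of_le_of_lt (pow_le_pow_left₀ (nrm_nonneg _) ?_ 2) hδ2
      dsimp only at hw1
      linarith
    · have f1 : ‖Φ ∘ (P ξ a - p.1 *ᵥ w.2)‖ ≤ δ := by
        refine (pi_norm_le_iff_of_nonneg hδ.le).2 fun j => (hγ' ((norm_le_pi_norm _ j).trans_lt e2)).le.trans ?_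
        linarith [min_le_left δ (δ ^ 2)]
      have f2 : P' (push Φ eX ξ) (Φ ∘ a) - p.1.map Φ *ᵥ b =
          Φ ∘ (P ξ a - p.1 *ᵥ w.2) + (p.1.map Φ *ᵥ (Φ ∘ w.2) - p.1.map Φ *ᵥ b) := by
        rw [eP, map_mulVec']
        ext j
        simp
      dsimp only at hw2 ⊢
      rw [f2]
      linarith [norm_add_le (Φ ∘ (P ξ a - p.1 *ᵥ w.2)) (p.1.map Φ *ᵥ (Φ ∘ w.2) - p.1.map Φ *ᵥ b)]
  · rw [map_sub, K0.map_mk, K0.map_mk]
    congr 3
    exact Matrix.map_one _ (map_zero Φ) (map_one Φ)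

omit [PartialOrder A] in
/-- A continuous star homomorphism of `C*`-rings is contractive. -/
theorem contr_of_cont [CStarRing A] (Φ : A →⋆ₐ[ℝ] A') (hc : Continuous Φ) (x : A) :
    ‖Φ x‖ ≤ ‖x‖ := by
  obtain ⟨K, hK, hb⟩ := SemilinearMapClass.bound_of_continuous Φ hc
  have key : ∀ (n : ℕ) (x : A), ‖Φ x‖ ^ 2 ^ n ≤ K * ‖x‖ ^ 2 ^ n := by
    intro n
    induction n with
    | zero => simpa using hb
    | succ n ih =>
      intro x
      have := ih (star x * x)
      rwa [map_mul, map_star, CStarRing.norm_star_mul_self, CStarRing.norm_star_mul_self, ← sq,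
        ← sq, ← pow_mul, ← pow_mul, ← pow_succ'] at this
  by_contra hlt
  rw [not_le] at hlt
  rcases (norm_nonneg x).eq_or_lt with h0 | h0
  · have := hb x
    rw [← h0] at this hlt
    linarith
  · have h1 : 1 < ‖Φ x‖ / ‖x‖ := (one_lt_div h0).2 hlt
    obtain ⟨n, hn⟩ := pow_unbounded_of_one_lt K h1
    have h2 : (‖Φ x‖ / ‖x‖) ^ n ≤ (‖Φ x‖ / ‖x‖) ^ 2 ^ n :=
      pow_le_pow_right₀ h1.le (Nat.lt_two_pow_self).le
    have h3 := (div_le_iff₀ (pow_pos h0 (2 ^ n))).2 (key n x)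
    rw [← div_pow] at h3
    linarith

/-- A continuous star homomorphism is monotone. -/
theorem mono_of_cont [CStarRing A] [StarModule ℝ A] [IsOrderedAddMonoid A] (h : OrdC A)
    (h' : OrdC A') (Φ : A →⋆ₐ[ℝ] A') (hc : Continuous Φ) : Monotone Φ := by
  refine (monotone_iff_map_nonneg Φ).2 fun y hy => ?_
  have h1 : ‖(1 : A)‖ ≤ 1 := by
    have := CStarRing.norm_star_mul_self (x := (1 : A))
    rw [star_one, mul_one] at this
    nlinarith [norm_nonneg (1 : A)]
  have h2 : ‖‖y‖ • (1 : A) - y‖ ≤ ‖y‖ := by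
    refine (h.norm_le _ (‖y‖ • 1) (sub_nonneg.2 (h.le_norm y (h.sa y hy))) (sub_le_self _ hy)).trans ?_
    rw [norm_smul, norm_norm]
    exact mul_le_of_le_one_right (norm_nonneg _) h1
  have h3 := (contr_of_cont Φ hc _).trans h2
  have h4 := h'.le_norm (Φ (‖y‖ • 1 - y)) (by rw [← map_star]; simp [h.sa y hy])
  have h5 := h'.smul _ _ (sub_nonneg.2 h3) h'.one
  have h6 := add_nonneg (sub_nonneg.2 h4) h5
  convert h6 using 1
  simp [sub_smul]

end Pool.Agent.Lib.TI
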